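import Pool.Agent.Run7.h356.LP.Stm

/-!
# Volume product of subspaces of `L_p`: piece LPN (helper270)
-/

set_option autoImplicit false

noncomputable section

open MeasureTheory Filter Topology Set
open scoped BigOperators Matrix ENNReal

namespace Run7.h270.LP

open H356LP H712MA

theorem abs_sign_rpow (y q : ℝ) (hq : 1 < q) (p : ℝ) (hpq : (q - 1) * p = q) (c : ℝ) (hc : 0 ≤ c) :
    |Real.sign y * |y| ^ (q - 1) * c| ^ p = |y| ^ q * c ^ p := by
  rcases eq_or_ne y 0 with rfl | hy
  · have hp : p ≠ 0 := by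
      rintro rfl
      rw [mul_zero] at hpq
      linarith
    rw [Real.sign_zero, zero_mul, zero_mul, abs_zero, Real.zero_rpow hp, Real.zero_rpow (by linarith),
      zero_mul]
  · have hs : |Real.sign y| = 1 := by
      rcases lt_or_gt_of_ne hy with h | h
      · rw [Real.sign_of_neg h]; simp
      · rw [Real.sign_of_pos h]; simp
    rw [abs_mul, abs_mul, hs, one_mul, abs_of_nonneg (Real.rpow_nonneg (abs_nonneg y) _),
      abs_of_nonneg hc, Real.mul_rpow (Real.rpow_nonneg (abs_nonneg y) _) hc,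
      ← Real.rpow_mul (abs_nonneg y), hpq]

theorem sign_mul_self (y q : ℝ) (hq : 1 < q) :
    Real.sign y * |y| ^ (q - 1) * y = |y| ^ q := by
  rcases eq_or_ne y 0 with rfl | hy
  · rw [mul_zero, abs_zero, Real.zero_rpow (by linarith)]
  · have h1 : Real.sign y * y = |y| := by
      rcases lt_or_gt_of_ne hy with h | h
      · rw [Real.sign_of_neg h, abs_of_neg h]; ring
      · rw [Real.sign_of_pos h, abs_of_pos h]; ring
    have h2 : |y| ^ q = |y| ^ (q - 1) * |y| := by
      have := Real.rpow_add_one (abs_pos.2 hy).ne' (q - 1)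
      rw [← this]
      congr 1
      ring
    rw [h2, ← h1]
    ring

theorem LPN : S_LPN := by
  intro p q hp hpq n
  have hp0 : 0 < p := by linarith
  have hq : 1 < q := hpq.symm.lt
  have hq0 : 0 < q := by linarith
  have hmul : (q - 1) * p = q := by
    have := hpq.mul_eq_add
    linarith
  have hinv : p⁻¹ + q⁻¹ = 1 := hpq.inv_add_inv_eq_one
  have hsub : PP {x : Fin n → ℝ | ∑ i, |x i| ^ p ≤ 1} ⊆ {y | ∑ i, |y i| ^ q ≤ 1} := by
    intro y hy
    by_contra hcon
    simp only [Set.mem_ofPred_eq, not_le] at hcon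
    obtain ⟨s, hs⟩ : ∃ s, s = ∑ i, |y i| ^ q := ⟨_, rfl⟩
    rw [← hs] at hcon
    have hs0 : 0 < s := by linarith
    have hc : 0 ≤ s ^ (-(1 / p)) := (Real.rpow_pos_of_pos hs0 _).le
    have h1 := hy (fun i => Real.sign (y i) * |y i| ^ (q - 1) * s ^ (-(1 / p))) (by
      simp only [Set.mem_ofPred_eq]
      have e : ∀ i, |Real.sign (y i) * |y i| ^ (q - 1) * s ^ (-(1 / p))| ^ p =
          |y i| ^ q * s⁻¹ := by
        intro i
        rw [abs_sign_rpow _ _ hq _ hmul _ hc, ← Real.rpow_mul hs0.le]
        have : -(1 / p) * p = -1 := by field_simp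
        rw [this, Real.rpow_neg_one]
      rw [Finset.sum_congr rfl fun i _ => e i, ← Finset.sum_mul, ← hs, mul_inv_cancel₀ hs0.ne'])
    have e : ∑ i, Real.sign (y i) * |y i| ^ (q - 1) * s ^ (-(1 / p)) * y i = s ^ (1 / q) := by
      have e1 : ∀ i, Real.sign (y i) * |y i| ^ (q - 1) * s ^ (-(1 / p)) * y i =
          |y i| ^ q * s ^ (-(1 / p)) := by
        intro i
        rw [← sign_mul_self (y i) q hq]
        ring
      rw [Finset.sum_congr rfl fun i _ => e1 i, ← Finset.sum_mul, ← hs]
      have h3 : s ^ (1 / q) = s ^ ((1 : ℝ) + -(1 / p)) := by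
        congr 1
        rw [one_div, one_div]
        linarith
      rw [h3, Real.rpow_add hs0, Real.rpow_one]
    rw [e] at h1
    have h2 : 1 < s ^ (1 / q) := Real.one_lt_rpow hcon (by positivity)
    linarith
  have hvol : ∀ r : ℝ, 1 < r → volume {x : Fin n → ℝ | ∑ i, |x i| ^ r ≤ 1} ≤
      ENNReal.ofReal ((2 * Real.Gamma (1 / r + 1)) ^ n / Real.Gamma (n / r + 1)) := by
    intro r hr
    have hr0 : 0 < r := by linarith
    rcases Nat.eq_zero_or_pos n with h | h
    · subst h
      have h1 : (volume : Measure (Fin 0 → ℝ)) univ ≤ 1 := by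
        rw [MeasureTheory.volume_pi, MeasureTheory.Measure.pi_univ]
        simp
      simpa using h1
    · have : Nonempty (Fin n) := ⟨⟨0, h⟩⟩
      have h1 := MeasureTheory.volume_sum_rpow_le (ι := Fin n) hr.le 1
      rw [ENNReal.ofReal_one, one_pow, one_mul, Fintype.card_fin] at h1
      rw [← h1]
      apply measure_mono
      intro x hx
      simp only [Set.mem_ofPred_eq] at hx ⊢
      exact Real.rpow_le_one (Finset.sum_nonneg fun i _ => Real.rpow_nonneg (abs_nonneg _) _) hx
        (by positivity)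
  have hG : ∀ r : ℝ, 1 < r →
      0 ≤ (2 * Real.Gamma (1 / r + 1)) ^ n / Real.Gamma (n / r + 1) := by
    intro r hr
    have hr0 : 0 < r := by linarith
    have h1 : 0 < Real.Gamma (1 / r + 1) := Real.Gamma_pos_of_pos (by positivity)
    have h2 : 0 < Real.Gamma (n / r + 1) := Real.Gamma_pos_of_pos (by positivity)
    positivity
  rw [ENNReal.ofReal_mul (hG p hp)]
  exact mul_le_mul' (hvol p hp) ((measure_mono hsub).trans (hvol q hq))

end Run7.h270.LP
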