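import Pool.Agent.Run7.h356.LP.Stm

/-!
# Volume product of subspaces of `L_p`: pieces MID and MAIN (helper270)
-/

set_option autoImplicit false

noncomputable section

open MeasureTheory Filter Topology Set
open scoped BigOperators Matrix ENNReal

namespace Run7.h270.LP

open H356LP H712MA

theorem cont_pk {n : ℕ} (v : Fin n → ℝ) : Continuous (pk v) := by
  have h1 : Continuous fun z : E2 n => (v ⬝ᵥ z.1, v ⬝ᵥ z.2) := by
    unfold dotProduct
    fun_prop
  have h2 : pk v = fun z : E2 n => Complex.equivRealProdCLM.symm (v ⬝ᵥ z.1, v ⬝ᵥ z.2) := by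
    funext z
    apply Complex.ext <;> simp [pk]
  rw [h2]
  exact Complex.equivRealProdCLM.symm.continuous.comp h1

theorem cont_VS {p q : ℝ} (D : Dat p q) {κ : Type} [Fintype κ] {n : ℕ} (l : κ → Fin n → ℝ) :
    Continuous (D.VS l) := by
  unfold Dat.VS
  exact continuous_finsetSum _ fun k _ => D.Vcont.comp (cont_pk (l k))

theorem MID (h : S_CC) (hZ : S_ZF) (hPI : S_PI) : S_MID := by
  intro p q D hp κ _ r l hl
  have h1 := h p q D hp κ r l hl
  have hk := D.k_pos
  have hX : ∀ f : Fin (r + 1) → κ, dt l f ≠ 0 →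
      ENNReal.ofReal D.k ^ (r + 1) * ∫⁻ s in Pos (r + 1), ∫⁻ φ in Ang (r + 1),
          ENNReal.ofReal (Real.exp (- D.VS l (zf l f fun i => D.T (s i) (φ i)))) ≤
        ∫⁻ z : E2 (r + 1), ENNReal.ofReal ((∏ i, D.rho (pk (l (f i)) z)) * (dt l f) ^ 2) *
          ENNReal.ofReal (Real.exp (- D.VS l z)) := by
    intro f hf
    obtain ⟨z1, z2, z3, -⟩ := hZ κ (r + 1) l f hf
    have hXm : Measurable fun t : Fin (r + 1) → ℂ =>
        ENNReal.ofReal (Real.exp (- D.VS l (zf l f t))) :=
      (Real.continuous_exp.comp ((cont_VS D l).comp z2).neg).measurable.ennreal_ofReal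
    refine ((hPI p q D (r + 1) _ hXm).2).trans (le_of_eq ?_)
    have hYm : Measurable fun z : E2 (r + 1) => ENNReal.ofReal (Real.exp (- D.VS l z)) *
        ∏ i, ENNReal.ofReal (D.rho (pk (l (f i)) z)) := by
      refine (Real.continuous_exp.comp (cont_VS D l).neg).measurable.ennreal_ofReal.mul ?_
      exact Finset.measurable_prod _ fun i _ =>
        (D.rmeas.comp (cont_pk (l (f i))).measurable).ennreal_ofReal
    have h3 := z3 _ hYm
    have e1 : (fun t : Fin (r + 1) → ℂ => ENNReal.ofReal (Real.exp (- D.VS l (zf l f t))) *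
        ∏ i, ENNReal.ofReal (D.rho (t i))) = fun t : Fin (r + 1) → ℂ =>
        ENNReal.ofReal (Real.exp (- D.VS l (zf l f t))) *
        ∏ i, ENNReal.ofReal (D.rho (pk (l (f i)) (zf l f t))) := by
      funext t
      congr 1
      exact Finset.prod_congr rfl fun i _ => by rw [z1]
    rw [e1, ← h3]
    congr 1
    funext z
    rw [ENNReal.ofReal_mul (Finset.prod_nonneg fun i _ => D.rnn _),
      ENNReal.ofReal_prod_of_nonneg fun i _ => D.rnn _]
    ring
  have h2 : ENNReal.ofReal D.k ^ (r + 1) *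
      ENNReal.ofReal (((r + 1).factorial : ℝ) * (2 * Real.pi) ^ (r + 1)) ≤
      ∑ f : Fin (r + 1) → κ, ∫⁻ z : E2 (r + 1),
        ENNReal.ofReal ((∏ i, D.rho (pk (l (f i)) z)) * (dt l f) ^ 2) *
          ENNReal.ofReal (Real.exp (- D.VS l z)) := by
    refine (mul_le_mul' le_rfl h1).trans ?_
    rw [Finset.mul_sum]
    refine Finset.sum_le_sum fun f _ => ?_
    split_ifs with hf
    · rw [mul_zero]
      exact zero_le
    · exact hX f hf
  have e2 : ENNReal.ofReal (D.k ^ (r + 1) * (((r + 1).factorial : ℝ) * (2 * Real.pi) ^ (r + 1))) =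
      ENNReal.ofReal D.k ^ (r + 1) *
      ENNReal.ofReal (((r + 1).factorial : ℝ) * (2 * Real.pi) ^ (r + 1)) := by
    rw [ENNReal.ofReal_mul (by positivity), ENNReal.ofReal_pow hk.le]
  rw [e2]
  refine h2.trans (le_of_eq ?_)
  rw [← lintegral_finsetSum]
  · congr 1
    funext z
    rw [← Finset.sum_mul, DS, ENNReal.ofReal_sum_of_nonneg]
    intro f _
    exact mul_nonneg (Finset.prod_nonneg fun i _ => D.rnn _) (sq_nonneg _)
  · intro f _
    have m1 : Measurable fun z : E2 (r + 1) => (∏ i, D.rho (pk (l (f i)) z)) * (dt l f) ^ 2 :=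
      (Finset.measurable_prod _ fun i _ => D.rmeas.comp (cont_pk (l (f i))).measurable).mul_const _
    exact m1.ennreal_ofReal.mul
      (Real.continuous_exp.comp (cont_VS D l).neg).measurable.ennreal_ofReal

theorem meas_int {p q : ℝ} (D : Dat p q) {κ : Type} [Fintype κ] {n : ℕ} (l : κ → Fin n → ℝ) :
    Measurable fun z : E2 n => ENNReal.ofReal (DS l (fun k => D.rho (pk (l k) z))) *
        ENNReal.ofReal (Real.exp (- D.VS l z)) := by
  have m1 : Measurable fun z : E2 n => DS l (fun k => D.rho (pk (l k) z)) := by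
    unfold DS
    exact Finset.measurable_sum _ fun f _ =>
      (Finset.measurable_prod _ fun i _ => D.rmeas.comp (cont_pk (l (f i))).measurable).mul_const _
  exact m1.ennreal_ofReal.mul
    (Real.continuous_exp.comp (cont_VS D l).neg).measurable.ennreal_ofReal

theorem null_hyp {n : ℕ} (v : Fin n → ℝ) (hv : v ≠ 0) :
    volume {x : Fin n → ℝ | v ⬝ᵥ x = 0} = 0 := by
  let S : Submodule ℝ (Fin n → ℝ) := LinearMap.ker (dotProductBilin ℝ ℝ v)
  have h1 : S ≠ ⊤ := by
    intro h
    apply hv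
    funext i
    have h2 : Pi.single i 1 ∈ S := by rw [h]; trivial
    rw [LinearMap.mem_ker] at h2
    simpa using h2
  have h2 := MeasureTheory.Measure.addHaar_submodule volume S h1
  exact h2

theorem MAIN (h1 : S_MID) (h2 : S_RS) : S_MAIN := by
  intro p q D hp hpq κ _ r l hl hlne Φ hΦ
  have hk := D.k_pos
  have h3 := h1 p q D hp κ r l hl
  have h4 : ∫⁻ z : E2 (r + 1), ENNReal.ofReal (DS l (fun k => D.rho (pk (l k) z))) *
        ENNReal.ofReal (Real.exp (- D.VS l z)) = ∫⁻ x : Fin (r + 1) → ℝ, ∫⁻ u : Fin (r + 1) → ℝ,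
        ENNReal.ofReal (DS l (fun k => D.rho (pk (l k) (x, u)))) *
        ENNReal.ofReal (Real.exp (- D.VS l (x, u))) := by
    exact lintegral_prod _ (meas_int D l).aemeasurable
  have hae : ∀ᵐ x : Fin (r + 1) → ℝ, ∀ k, l k ⬝ᵥ x ≠ 0 := by
    rw [ae_all_iff]
    intro k
    rw [ae_iff]
    simp only [ne_eq, not_not]
    exact null_hyp (l k) (hlne k)
  have h5 : ∫⁻ x : Fin (r + 1) → ℝ, ∫⁻ u : Fin (r + 1) → ℝ,
        ENNReal.ofReal (DS l (fun k => D.rho (pk (l k) (x, u)))) *
        ENNReal.ofReal (Real.exp (- D.VS l (x, u))) ≤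
      ∫⁻ x : Fin (r + 1) → ℝ, (((r + 1).factorial : ℕ) : ℝ≥0∞) *
        (ENNReal.ofReal (Real.exp (-((∑ k, |l k ⬝ᵥ x| ^ p) / p))) *
        ∫⁻ y, ENNReal.ofReal (Real.exp (- Φ y))) := by
    refine lintegral_mono_ae ?_
    filter_upwards [hae] with x hx
    exact h2 p q D hpq κ (r + 1) l hl Φ hΦ x hx
  have hm : Measurable fun x : Fin (r + 1) → ℝ =>
      ENNReal.ofReal (Real.exp (-((∑ k, |l k ⬝ᵥ x| ^ p) / p))) := by
    refine Measurable.ennreal_ofReal ?_
    refine Real.measurable_exp.comp ?_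
    refine Measurable.neg ?_
    refine Measurable.div_const ?_ _
    refine Finset.measurable_sum _ fun k _ => ?_
    refine Measurable.pow_const ?_ _
    have : Continuous fun x : Fin (r + 1) → ℝ => l k ⬝ᵥ x := by
      unfold dotProduct
      fun_prop
    exact (continuous_abs.comp this).measurable
  rw [lintegral_const_mul _ (hm.mul_const _), lintegral_mul_const _ hm] at h5
  have h6 := h3.trans (h4.le.trans h5)
  have hf0 : (0 : ℝ) < ((r + 1).factorial : ℝ) := by exact_mod_cast Nat.factorial_pos _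
  have e : ENNReal.ofReal (D.k ^ (r + 1) * (((r + 1).factorial : ℝ) * (2 * Real.pi) ^ (r + 1))) =
      (((r + 1).factorial : ℕ) : ℝ≥0∞) * ENNReal.ofReal ((2 * Real.pi * D.k) ^ (r + 1)) := by
    rw [← ENNReal.ofReal_natCast, ← ENNReal.ofReal_mul hf0.le]
    congr 1
    rw [mul_pow (2 * Real.pi)]
    ring
  rw [e] at h6
  rwa [ENNReal.mul_le_mul_iff_right (by exact_mod_cast Nat.factorial_ne_zero _)
    (ENNReal.natCast_ne_top _)] at h6

end Run7.h270.LP
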